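import Pool.Agent.Lib.MP_f8ecd9_al.Carlsson

set_option autoImplicit false

namespace Pool.Agent.Results.MP_f8ecd9_al.CarlssonCharTwo

/-- Algebraic Carlsson rank inequality in characteristic two: a nonzero minimal bounded complex of
finitely generated free modules over `k[x_1..x_d]/(x_i^2)` has total homology of dimension at
least `2 ^ d`. -/
theorem result :
    ∀ (k : Type) [Field k] [CharP k 2] (d : ℕ) (I : Ideal (MvPolynomial (Fin d) k)),
      I = Ideal.span (Set.range (fun i : Fin d => (MvPolynomial.X i : MvPolynomial (Fin d) k) ^ 2)) →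
      ∀ (n : ℕ) (D : Matrix (Fin n) (Fin n) (MvPolynomial (Fin d) k ⧸ I)),
        0 < n →
        D * D = 0 →
        (∃ deg : Fin n → ℕ, ∀ i j, D i j ≠ 0 → deg j = deg i + 1) →
        (∀ i j, IsNilpotent (D i j)) →
        2 ^ d + Module.finrank k (LinearMap.range (D.mulVecLin.restrictScalars k)) ≤
          Module.finrank k (LinearMap.ker (D.mulVecLin.restrictScalars k)) := by
  intro k _ _ d I hI n D hn hD hdeg hnil
  subst hI
  exact Pool.Agent.Lib.MP_f8ecd9_al.carlsson hn D hD hdeg hnil

end Pool.Agent.Results.MP_f8ecd9_al.CarlssonCharTwo
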